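import Mathlib.Analysis.SpecialFunctions.Exp
import Mathlib.Data.Fintype.BigOperators
import Mathlib.Data.Fintype.Pi
import Mathlib.Tactic.Positivity
import Mathlib.Tactic.Linarith
import Mathlib.Tactic.FieldSimp
import Mathlib.Algebra.BigOperators.Field

/-!
# Random small vertex sets, one for each part of a partition of the pairs

The pairs of a vertex of `A` and a vertex of `B` are partitioned into parts; for the `k`-th part a
random set of at most `s` vertices is chosen. It is unlikely that no pair meets the set of its part.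
-/

set_option autoImplicit false

open Finset

namespace Pool.Agent.Q202.TB

theorem touch {a b e Y : ℕ} (h1 : e ≤ a * b) (h2 : e ≤ Y ^ 2) : 2 * e ≤ Y * (a + b) := by
  by_contra hcon
  rw [not_le] at hcon
  have h3 : (Y * (a + b)) * (Y * (a + b)) < (2 * e) * (2 * e) := Nat.mul_lt_mul'' hcon hcon
  have h4 : 4 * (a * b) ≤ (a + b) * (a + b) := by
    zify
    nlinarith [sq_nonneg ((a : ℤ) - b)]
  have h5 : (2 * e) * (2 * e) ≤ 4 * ((a * b) * Y ^ 2) := by
    calc (2 * e) * (2 * e) = 4 * (e * e) := by ring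
      _ ≤ _ := Nat.mul_le_mul_left _ (Nat.mul_le_mul h1 h2)
  have h6 : 4 * ((a * b) * Y ^ 2) ≤ (Y * (a + b)) * (Y * (a + b)) := by
    calc 4 * ((a * b) * Y ^ 2) = (4 * (a * b)) * Y ^ 2 := by ring
      _ ≤ ((a + b) * (a + b)) * Y ^ 2 := Nat.mul_le_mul_right _ h4
      _ = _ := by ring
  omega

variable {X : Type} [Fintype X] [DecidableEq X] {s t : ℕ}

open Classical in
/-- The vertices of `A` and `B` which lie in a pair of the `k`-th part. -/
noncomputable def touched (A B : Finset X) (q : X → X → Fin t) (k : Fin t) : Finset X :=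
  (A.filter fun a => ∃ c ∈ B, q a c = k) ∪ (B.filter fun c => ∃ a ∈ A, q a c = k)

omit [Fintype X] in
theorem card_touched {A B : Finset X} (hAB : Disjoint A B) {q : X → X → Fin t} {Y : ℕ}
    (hq : ∀ k, ((A ×ˢ B).filter (fun e => q e.1 e.2 = k)).card ≤ Y ^ 2) (k : Fin t) :
    2 * ((A ×ˢ B).filter (fun e => q e.1 e.2 = k)).card ≤ Y * (touched A B q k).card := by
  classical
  unfold touched
  rw [card_union_of_disjoint
    (disjoint_of_subset_left (filter_subset _ _) (disjoint_of_subset_right (filter_subset _ _) hAB))]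
  refine touch ?_ (hq k)
  rw [← card_product]
  refine card_le_card fun e he => ?_
  rw [mem_filter, mem_product] at he
  rw [mem_product, mem_filter, mem_filter]
  exact ⟨⟨he.1.1, e.2, he.1.2, he.2⟩, he.1.2, e.1, he.1.1, he.2⟩

omit [Fintype X] in
theorem sum_touched {A B : Finset X} (hAB : Disjoint A B) {q : X → X → Fin t} {Y : ℕ}
    (hq : ∀ k, ((A ×ˢ B).filter (fun e => q e.1 e.2 = k)).card ≤ Y ^ 2) :
    2 * (A.card * B.card) ≤ Y * ∑ k, (touched A B q k).card := by
  classical
  rw [mul_sum, ← card_product, card_eq_sum_card_fiberwise (f := fun e : X × X => q e.1 e.2)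
    (t := univ) (fun e _ => by simp), mul_sum]
  exact sum_le_sum fun k _ => card_touched hAB hq k

open Classical in
/-- No pair of a vertex of `A` and a vertex of `B` meets the set of its part. -/
noncomputable def avoiding (s : ℕ) (A B : Finset X) (q : X → X → Fin t) :
    Finset (Fin t → Fin s → X) :=
  univ.filter (fun b => ∀ a ∈ A, ∀ c ∈ B, ∀ i, b (q a c) i ≠ a ∧ b (q a c) i ≠ c)

theorem mem_avoiding {A B : Finset X} {q : X → X → Fin t} {b : Fin t → Fin s → X} :
    b ∈ avoiding s A B q ↔ ∀ a ∈ A, ∀ c ∈ B, ∀ i, b (q a c) i ≠ a ∧ b (q a c) i ≠ c := by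
  unfold avoiding
  simp

theorem card_avoiding {A B : Finset X} (hAB : Disjoint A B) (hX : 0 < Fintype.card X)
    {q : X → X → Fin t} {Y : ℕ} (hY : 0 < Y)
    (hq : ∀ k, ((A ×ˢ B).filter (fun e => q e.1 e.2 = k)).card ≤ Y ^ 2) :
    ((avoiding s A B q).card : ℝ) ≤ (Fintype.card (Fin s → X) : ℝ) ^ t *
      Real.exp (-(2 * s * A.card * B.card) / (Fintype.card X * Y)) := by
  classical
  obtain ⟨N, hN⟩ : ∃ N, N = Fintype.card X := ⟨_, rfl⟩
  rw [← hN] at hX ⊢
  have hNr : (0 : ℝ) < N := by exact_mod_cast hX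
  have hYr : (0 : ℝ) < Y := by exact_mod_cast hY
  have h1 : avoiding s A B q ⊆ Fintype.piFinset (fun k : Fin t =>
      Fintype.piFinset (fun _ : Fin s => (touched A B q k)ᶜ)) := by
    intro b hb
    unfold avoiding at hb
    rw [mem_filter] at hb
    rw [Fintype.mem_piFinset]
    intro k
    rw [Fintype.mem_piFinset]
    intro i
    rw [mem_compl]
    intro h
    unfold touched at h
    rw [mem_union, mem_filter, mem_filter] at h
    rcases h with ⟨g1, c, g2, g3⟩ | ⟨g1, a, g2, g3⟩
    · have := (hb.2 (b k i) g1 c g2 i).1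
      rw [g3] at this
      exact this rfl
    · have := (hb.2 a g2 (b k i) g1 i).2
      rw [g3] at this
      exact this rfl
  have h2 : ((avoiding s A B q).card : ℝ) ≤ ∏ k : Fin t, ((touched A B q k)ᶜ.card : ℝ) ^ s := by
    have := card_le_card h1
    rw [Fintype.card_piFinset] at this
    simp only [Fintype.card_piFinset, prod_const, card_univ, Fintype.card_fin] at this
    exact_mod_cast this
  have h3 : ∀ k : Fin t, ((touched A B q k)ᶜ.card : ℝ) ^ s ≤
      ((N : ℝ) ^ s) * Real.exp (-(s * (touched A B q k).card) / N) := by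
    intro k
    have e1 : ((touched A B q k)ᶜ.card : ℝ) = N - (touched A B q k).card := by
      rw [card_compl, ← hN, Nat.cast_sub]
      rw [hN]
      exact card_le_univ _
    have e2 : (N : ℝ) - (touched A B q k).card ≤
        N * Real.exp (-((touched A B q k).card) / N) := by
      have e3 := Real.add_one_le_exp (-((touched A B q k).card : ℝ) / N)
      have e4 : (N : ℝ) - (touched A B q k).card =
          N * (-((touched A B q k).card : ℝ) / N + 1) := by
        field_simp
        ring
      rw [e4]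
      exact mul_le_mul_of_nonneg_left e3 hNr.le
    have e5 : (0 : ℝ) ≤ (N : ℝ) - (touched A B q k).card := by
      rw [← e1]
      exact Nat.cast_nonneg _
    rw [e1]
    refine (pow_le_pow_left₀ e5 e2 s).trans (le_of_eq ?_)
    rw [mul_pow, ← Real.exp_nat_mul]
    congr 2
    ring
  have h4 : ∏ k : Fin t, ((touched A B q k)ᶜ.card : ℝ) ^ s ≤
      ∏ k : Fin t, ((N : ℝ) ^ s) * Real.exp (-(s * (touched A B q k).card) / N) :=
    prod_le_prod (fun k _ => by positivity) fun k _ => h3 k
  refine h2.trans (h4.trans ?_)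
  rw [prod_mul_distrib, prod_const, card_univ, Fintype.card_fin, ← Real.exp_sum, Fintype.card_fun,
    Fintype.card_fin, ← hN]
  push_cast
  refine mul_le_mul_of_nonneg_left (Real.exp_le_exp.2 ?_) (by positivity)
  have h5 := sum_touched hAB hq
  have h6 : (2 : ℝ) * (A.card * B.card) ≤ Y * ∑ k, ((touched A B q k).card : ℝ) := by
    exact_mod_cast h5
  rw [← sum_div, sum_neg_distrib, ← mul_sum, div_le_div_iff₀ hNr (by positivity)]
  have h7 : (s : ℝ) * N * (2 * (A.card * B.card)) ≤
      s * N * (Y * ∑ k, ((touched A B q k).card : ℝ)) :=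
    mul_le_mul_of_nonneg_left h6 (by positivity)
  nlinarith [h7]

end Pool.Agent.Q202.TB
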