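import Pool.Agent.Q202.TB.Avoid
import Pool.Agent.TH700.PA.Density
import Pool.Agent.TH700.PA.Count
import Mathlib.Analysis.Complex.ExponentialBounds
import Mathlib.Tactic.Ring

/-!
# Read-once tensor networks and vertex cover
-/

set_option autoImplicit false

open Finset

namespace Pool.Agent.Q202.TB

open Pool.Agent.TH700.PA

/-- The pairs of vertices. -/
abbrev Pairs (n : ℕ) : Type := {e : Fin n × Fin n // e.1 < e.2}

/-- `C` is a vertex cover of the graph `x` (`x e` tells whether the pair `e` is an edge). -/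
def IsCover {n : ℕ} (x : Pairs n → Bool) (C : Finset (Fin n)) : Prop :=
  ∀ e, x e = true → e.1.1 ∈ C ∨ e.1.2 ∈ C

variable {n s t : ℕ}

open Classical in
/-- The graph of all pairs which meet the vertices chosen by `u`. -/
noncomputable def vstar (u : Fin s → Fin n) : Pairs n → Bool :=
  fun e => decide (∃ r, u r = e.1.1 ∨ u r = e.1.2)

theorem vstar_cover (u : Fin s → Fin n) : ∃ C, IsCover (vstar u) C ∧ C.card ≤ s := by
  classical
  refine ⟨univ.image u, fun e he => ?_, ?_⟩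
  · unfold vstar at he
    rw [decide_eq_true_eq] at he
    obtain ⟨r, h | h⟩ := he
    · exact Or.inl (mem_image.2 ⟨r, mem_univ _, h⟩)
    · exact Or.inr (mem_image.2 ⟨r, mem_univ _, h⟩)
  · refine card_image_le.trans ?_
    rw [card_univ, Fintype.card_fin]

/-- The part of a pair, for vertices in any order. -/
noncomputable def cls (p : Pairs n → Fin t) (k₀ : Fin t) (a c : Fin n) : Fin t :=
  if h : a < c then p ⟨(a, c), h⟩ else if h : c < a then p ⟨(c, a), h⟩ else k₀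

/-- Few mixtures have a large independent set. -/
theorem few_bad_vc {g y : ℕ} (hg : 1 ≤ g) (hn : 4 * g ≤ n) (hy1 : 1 ≤ y) (ht : 1 ≤ t)
    (hs : 48 * g ^ 2 * y ≤ s) (p : Pairs n → Fin t)
    (hb : ∀ k, (univ.filter (fun e => p e = k)).card ≤ 2 * y ^ 2) :
    ∃ B : Finset (Fin t → Fin s → Fin n),
      (∀ b, (∃ C : Finset (Fin n), n ≤ g * (n - C.card) ∧ IsCover (mixp p vstar b) C) → b ∈ B) ∧
      B.card * 2 ^ (2 * n) ≤ Fintype.card (Fin s → Fin n) ^ t := by
  classical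
  let k₀ : Fin t := ⟨0, ht⟩
  have hn1 : 1 ≤ n := by omega
  let I : Finset (Finset (Fin n) × Finset (Fin n)) :=
    univ.filter (fun e => Disjoint e.1 e.2 ∧ n ≤ 4 * g * e.1.card ∧ n ≤ 4 * g * e.2.card)
  refine ⟨I.biUnion (fun e => avoiding s e.1 e.2 (cls p k₀)), ?_, ?_⟩
  · rintro b ⟨C, hC, hcov⟩
    -- two halves of the complement
    have hcc : (Cᶜ).card = n - C.card := by rw [card_compl, Fintype.card_fin]
    rw [← hcc] at hC
    obtain ⟨m, hm⟩ : ∃ m, m = (Cᶜ).card / 2 := ⟨_, rfl⟩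
    have hm4 : (Cᶜ).card ≤ 4 * m := by
      have h1 : 4 ≤ (Cᶜ).card := by
        by_contra hcon
        rw [not_le] at hcon
        have : g * (Cᶜ).card ≤ g * 3 := Nat.mul_le_mul_left _ (by omega)
        omega
      omega
    obtain ⟨A, hA1, hA2⟩ := exists_subset_card_eq (s := Cᶜ) (n := m) (by omega)
    obtain ⟨D, hD1, hD2⟩ := exists_subset_card_eq (s := Cᶜ \ A) (n := m) (by
      rw [card_sdiff_of_subset hA1]
      omega)
    have hAD : Disjoint A D := disjoint_of_subset_right hD1 disjoint_sdiff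
    have hsz : n ≤ 4 * g * m := by
      calc n ≤ g * (Cᶜ).card := hC
        _ ≤ g * (4 * m) := Nat.mul_le_mul_left _ hm4
        _ = _ := by ring
    rw [mem_biUnion]
    refine ⟨(A, D), mem_filter.2 ⟨mem_univ _, hAD, by rw [hA2]; exact hsz, by rw [hD2]; exact hsz⟩,
      ?_⟩
    rw [mem_avoiding]
    intro a ha c hc r
    have haC : a ∉ C := mem_compl.1 (hA1 ha)
    have hcC : c ∉ C := mem_compl.1 (mem_sdiff.1 (hD1 hc)).1
    have hne : a ≠ c := fun h => disjoint_left.1 hAD ha (h ▸ hc)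
    rcases lt_or_gt_of_ne hne with h | h
    · have h1 : mixp p vstar b ⟨(a, c), h⟩ ≠ true := fun hx =>
        (hcov _ hx).elim haC hcC
      unfold mixp vstar at h1
      rw [Ne, decide_eq_true_eq] at h1
      push Not at h1
      have h2 : cls p k₀ a c = p ⟨(a, c), h⟩ := by unfold cls; rw [dif_pos h]
      rw [h2]
      exact h1 r
    · have h1 : mixp p vstar b ⟨(c, a), h⟩ ≠ true := fun hx =>
        (hcov _ hx).elim hcC haC
      unfold mixp vstar at h1
      rw [Ne, decide_eq_true_eq] at h1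
      push Not at h1
      have h2 : cls p k₀ a c = p ⟨(c, a), h⟩ := by
        unfold cls
        rw [dif_neg (lt_asymm h), dif_pos h]
      rw [h2]
      exact ⟨(h1 r).2, (h1 r).1⟩
  · have hcls : ∀ A C : Finset (Fin n), Disjoint A C → ∀ k,
        ((A ×ˢ C).filter (fun e => cls p k₀ e.1 e.2 = k)).card ≤ (2 * y) ^ 2 := by
      intro A C hAC k
      have h6 := hb k
      have h7 : (2 * y) ^ 2 = 4 * y ^ 2 := by ring
      refine le_trans (b := 2 * y ^ 2) (le_trans ?_ h6) (by omega)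
      have hne : ∀ e : Fin n × Fin n, e ∈ A ×ˢ C → e.1 ≠ e.2 := by
        intro e he h
        rw [mem_product] at he
        exact disjoint_left.1 hAC he.1 (h ▸ he.2)
      refine card_le_card_of_injOn
        (fun e => if h : e.1 < e.2 then ⟨(e.1, e.2), h⟩ else
          if h : e.2 < e.1 then ⟨(e.2, e.1), h⟩ else ⟨(⟨0, by omega⟩, ⟨1, by omega⟩), by
            show (0 : ℕ) < 1
            norm_num⟩) ?_ ?_
      · intro e he
        rw [mem_coe, mem_filter] at he
        rw [mem_coe, mem_filter]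
        refine ⟨mem_univ _, ?_⟩
        have h1 := hne e he.1
        rcases lt_or_gt_of_ne h1 with h | h
        · simp only [dif_pos h]
          rw [← he.2]
          unfold cls
          rw [dif_pos h]
        · simp only [dif_neg (lt_asymm h), dif_pos h]
          rw [← he.2]
          unfold cls
          rw [dif_neg (lt_asymm h), dif_pos h]
      · intro e he e' he' hee
        rw [mem_coe, mem_filter] at he he'
        have h1 := hne e he.1
        have h2 := hne e' he'.1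
        have m1 := mem_product.1 he.1
        have m2 := mem_product.1 he'.1
        rcases lt_or_gt_of_ne h1 with h | h <;> rcases lt_or_gt_of_ne h2 with h' | h'
        · simp only [dif_pos h, dif_pos h', Subtype.mk.injEq, Prod.mk.injEq] at hee
          exact Prod.ext hee.1 hee.2
        · simp only [dif_pos h, dif_neg (lt_asymm h'), dif_pos h', Subtype.mk.injEq,
            Prod.mk.injEq] at hee
          exact absurd m2.2 (disjoint_left.1 hAC (hee.1 ▸ m1.1))
        · simp only [dif_neg (lt_asymm h), dif_pos h, dif_pos h', Subtype.mk.injEq,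
            Prod.mk.injEq] at hee
          exact absurd m1.2 (disjoint_left.1 hAC (hee.1 ▸ m2.1))
        · simp only [dif_neg (lt_asymm h), dif_pos h, dif_neg (lt_asymm h'), dif_pos h',
            Subtype.mk.injEq, Prod.mk.injEq] at hee
          exact Prod.ext hee.2 hee.1
    have hnr : (0 : ℝ) < n := by exact_mod_cast hn1
    have hyr : (0 : ℝ) < y := by exact_mod_cast hy1
    have hgr : (0 : ℝ) < g := by exact_mod_cast hg
    obtain ⟨Q, hQ⟩ : ∃ Q : ℝ, Q = (Fintype.card (Fin s → Fin n) : ℝ) ^ t := ⟨_, rfl⟩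
    have hQ0 : 0 ≤ Q := by rw [hQ]; positivity
    have hone : ∀ e ∈ I, ((avoiding s e.1 e.2 (cls p k₀)).card : ℝ) ≤ Q * Real.exp (-(3 * n)) := by
      intro e he
      obtain ⟨hd, h2, h3⟩ := (mem_filter.1 he).2
      have h1 := card_avoiding (s := s) hd (by rw [Fintype.card_fin]; omega) (Y := 2 * y)
        (by omega) (hcls e.1 e.2 hd)
      rw [← hQ, Fintype.card_fin] at h1
      refine h1.trans (mul_le_mul_of_nonneg_left (Real.exp_le_exp.2 ?_) hQ0)
      have h2' : (n : ℝ) ≤ 4 * g * e.1.card := by exact_mod_cast h2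
      have h3' : (n : ℝ) ≤ 4 * g * e.2.card := by exact_mod_cast h3
      have h4 : (n : ℝ) * n ≤ 16 * (g : ℝ) ^ 2 * (e.1.card * e.2.card) := by
        calc (n : ℝ) * n ≤ (4 * g * e.1.card) * (4 * g * e.2.card) :=
              mul_le_mul h2' h3' hnr.le (by positivity)
          _ = _ := by ring
      have h5 : 48 * (g : ℝ) ^ 2 * y ≤ s := by exact_mod_cast hs
      push_cast
      rw [div_le_iff₀ (by positivity)]
      have h6 : 48 * (g : ℝ) ^ 2 * y * (e.1.card * e.2.card) ≤ s * (e.1.card * e.2.card) :=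
        mul_le_mul_of_nonneg_right h5 (by positivity)
      have h7 : 3 * (y : ℝ) * (n * n) ≤ 3 * y * (16 * (g : ℝ) ^ 2 * (e.1.card * e.2.card)) :=
        mul_le_mul_of_nonneg_left h4 (by positivity)
      nlinarith
    have hI : (I.card : ℝ) ≤ 4 ^ n := by
      have h1 := card_le_univ I
      rw [Fintype.card_prod, Fintype.card_finset, Fintype.card_fin] at h1
      have h2 : 2 ^ n * 2 ^ n = 4 ^ n := by rw [← mul_pow]; norm_num
      rw [h2] at h1
      exact_mod_cast h1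
    have hfin : ((I.biUnion (fun e => avoiding s e.1 e.2 (cls p k₀))).card : ℝ) * 2 ^ (2 * n) ≤
        Q := by
      have h1 : ((I.biUnion (fun e => avoiding s e.1 e.2 (cls p k₀))).card : ℝ) ≤
          4 ^ n * (Q * Real.exp (-(3 * n))) := by
        calc ((I.biUnion (fun e => avoiding s e.1 e.2 (cls p k₀))).card : ℝ) ≤
            ((∑ e ∈ I, (avoiding s e.1 e.2 (cls p k₀)).card : ℕ) : ℝ) := by
              exact_mod_cast card_biUnion_le
          _ = ∑ e ∈ I, ((avoiding s e.1 e.2 (cls p k₀)).card : ℝ) := by push_cast; rfl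
          _ ≤ ∑ _e ∈ I, Q * Real.exp (-(3 * n)) := sum_le_sum hone
          _ = I.card * (Q * Real.exp (-(3 * n))) := by rw [sum_const, nsmul_eq_mul]
          _ ≤ _ := mul_le_mul_of_nonneg_right hI (by positivity)
      have h2 : (4 : ℝ) ^ n * Real.exp (-(3 * n)) * 2 ^ (2 * n) ≤ 1 := by
        have h3 : Real.exp (-(3 * n)) = Real.exp (-3) ^ n := by
          rw [← Real.exp_nat_mul]
          congr 1
          ring
        rw [h3, pow_mul, ← mul_pow, ← mul_pow]
        refine pow_le_one₀ (by positivity) ?_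
        have h4 : (16 : ℝ) ≤ Real.exp 3 := by
          have h5 := Real.exp_one_gt_d9
          have h6 : Real.exp 3 = Real.exp 1 ^ 3 := by
            rw [← Real.exp_nat_mul]
            norm_num
          rw [h6]
          have h7 : (2.7 : ℝ) ^ 3 ≤ Real.exp 1 ^ 3 :=
            pow_le_pow_left₀ (by norm_num) (by linarith) 3
          refine le_trans (by norm_num) h7
        rw [Real.exp_neg]
        have h8 : 0 < Real.exp 3 := Real.exp_pos 3
        rw [show (4 : ℝ) * (Real.exp 3)⁻¹ * 2 ^ 2 = 16 / Real.exp 3 by ring]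
        rw [div_le_one h8]
        exact h4
      calc ((I.biUnion (fun e => avoiding s e.1 e.2 (cls p k₀))).card : ℝ) * 2 ^ (2 * n) ≤
          4 ^ n * (Q * Real.exp (-(3 * n))) * 2 ^ (2 * n) :=
            mul_le_mul_of_nonneg_right h1 (by positivity)
        _ = Q * ((4 : ℝ) ^ n * Real.exp (-(3 * n)) * 2 ^ (2 * n)) := by ring
        _ ≤ Q * 1 := mul_le_mul_of_nonneg_left h2 hQ0
        _ = Q := mul_one Q
    rw [hQ] at hfin
    exact_mod_cast hfin

theorem main_vc : ∃ Γ : ℕ, ∀ g n : ℕ, 1 ≤ g → Γ * g ^ 7 ≤ n →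
    ∀ (μ : ℕ) (R : Type) [Fintype R] [Nonempty R] (K W : R → Type) [∀ ρ, Field (K ρ)]
      [∀ ρ, Fintype (W ρ)] (T : ∀ ρ, Net (K ρ) (Pairs n) Bool (W ρ)) (a : ∀ ρ, W ρ → K ρ),
      (∀ ρ e, (T ρ).reads e ≤ 1) →
      (∀ ρ x, (∀ C, IsCover x C → g * (n - C.card) < n) → (T ρ).value (a ρ) x = 0) →
      (∀ x, (∃ C, IsCover x C ∧ g * C.card ≤ n) →
        Nat.card R ≤ 2 ^ μ * Nat.card {ρ // (T ρ).value (a ρ) x ≠ 0}) →
      ∃ ρ, 2 ^ n ≤ (2 ^ μ * Fintype.card (W ρ)) ^ (Γ * g ^ 6) := by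
  classical
  refine ⟨1000000, fun g n hg hn μ R _ _ K W _ _ T a h1 hno hyes => ?_⟩
  have hg6 : 1 ≤ g ^ 6 := Nat.one_le_pow _ _ hg
  have hg7 : g ^ 6 ≤ g ^ 7 := Nat.pow_le_pow_right hg (by norm_num)
  have hg3 : g ^ 3 ≤ g ^ 7 := Nat.pow_le_pow_right hg (by norm_num)
  have hg1 : g ≤ g ^ 7 := by
    calc g = g ^ 1 := (pow_one g).symm
      _ ≤ _ := Nat.pow_le_pow_right hg (by norm_num)
  obtain ⟨k, hk⟩ : ∃ k, k = 48 * g ^ 3 := ⟨_, rfl⟩
  have hk1 : 1 ≤ k := by
    have : 1 ≤ g ^ 3 := Nat.one_le_pow _ _ hg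
    omega
  have hnk : k ≤ n := by omega
  have hn1 : 1 ≤ n := by omega
  obtain ⟨t, ht⟩ : ∃ t, t = 8 * k ^ 2 + 1 := ⟨_, rfl⟩
  have ht1 : 1 ≤ t := by omega
  obtain ⟨y, hy⟩ : ∃ y, y = n / k := ⟨_, rfl⟩
  have hy1 : 1 ≤ y := by
    rw [hy]
    exact Nat.div_pos hnk (by omega)
  have hyn : k * y ≤ n := by
    rw [hy]
    exact Nat.mul_div_le n _
  have hny : n < k * (y + 1) := by
    rw [hy]
    exact Nat.lt_mul_div_succ n (by omega)
  obtain ⟨s, hs⟩ : ∃ s, s = 48 * g ^ 2 * y := ⟨_, rfl⟩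
  have hgs : g * s ≤ n := by
    calc g * s = k * y := by rw [hs, hk]; ring
      _ ≤ n := hyn
  have hV : Fintype.card (Pairs n) ≤ n * n := by
    have := Fintype.card_subtype_le (fun e : Fin n × Fin n => e.1 < e.2)
    rwa [Fintype.card_prod, Fintype.card_fin] at this
  have hE : 2 * Fintype.card (Pairs n) + y ^ 2 ≤ y ^ 2 * t := by
    rw [ht]
    have e1 : n ≤ 2 * k * y := by nlinarith
    have e2 : n * n ≤ (2 * k * y) * (2 * k * y) := Nat.mul_le_mul e1 e1
    calc 2 * Fintype.card (Pairs n) + y ^ 2 ≤ 2 * ((2 * k * y) * (2 * k * y)) + y ^ 2 :=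
          Nat.add_le_add_right (Nat.mul_le_mul_left _ (hV.trans e2)) _
      _ = _ := by ring
  have : Nonempty (Fin s → Fin n) := ⟨fun _ => ⟨0, hn1⟩⟩
  obtain ⟨ρ, hρ, hw1⟩ := rand_density μ R K W T a h1 (θ := y ^ 2) (t := t)
    (Nat.one_le_pow _ _ hy1) (by omega) hE (U := Fin s → Fin n) vstar
    (univ : Finset (Fin s → Fin n)) (η := 0) (by rw [card_univ, pow_zero, one_mul])
    (fun u _ => hyes _ (by
      obtain ⟨C, hC1, hC2⟩ := vstar_cover u
      exact ⟨C, hC1, (Nat.mul_le_mul_left g hC2).trans hgs⟩)) (N := 2 ^ (2 * n)) (fun ρ p hp => by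
        obtain ⟨B, hB1, hB2⟩ := few_bad_vc (s := s) hg (by omega) hy1 ht1 hs.ge p hp
        refine ⟨B, fun b hb => hB1 b ?_, hB2⟩
        by_contra hcon
        push Not at hcon
        exact hb (hno ρ _ fun C hC => by
          by_contra hlt
          exact hcon C (not_lt.1 hlt) hC))
  refine ⟨ρ, ?_⟩
  obtain ⟨w, hw⟩ : ∃ w, w = Fintype.card (W ρ) := ⟨_, rfl⟩
  rw [← hw] at hρ hw1 ⊢
  obtain ⟨X, hX⟩ : ∃ X, X = 2 ^ μ * w := ⟨_, rfl⟩
  have hX1 : 1 ≤ X := by
    rw [hX]
    exact Nat.mul_pos (Nat.pow_pos (by norm_num)) hw1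
  rw [← hX]
  have htk : t + 1 ≤ 20000 * g ^ 6 := by
    rw [ht, hk]
    have : 8 * (48 * g ^ 3) ^ 2 = 18432 * g ^ 6 := by ring
    omega
  have e1 : 2 ^ (μ + 0 + 1) * (t * w ^ 3) ≤ (2 * t) * X ^ 3 := by
    have e3 : 2 ^ μ ≤ (2 ^ μ) ^ 3 := by
      conv_lhs => rw [← pow_one (2 ^ μ)]
      exact Nat.pow_le_pow_right (Nat.pow_pos (by norm_num)) (by norm_num)
    calc 2 ^ (μ + 0 + 1) * (t * w ^ 3) = 2 * t * (2 ^ μ * w ^ 3) := by
          rw [add_zero, pow_succ]; ring
      _ ≤ 2 * t * ((2 ^ μ) ^ 3 * w ^ 3) :=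
          Nat.mul_le_mul_left _ (Nat.mul_le_mul_right _ e3)
      _ = _ := by rw [hX, mul_pow]
  have e2 : 2 * t ≤ 2 ^ (22 * g) := by
    have e3 : t ≤ 20000 * g ^ 6 := by omega
    have e4 : g ≤ 2 ^ g := Nat.lt_two_pow_self.le
    have e5 : g ^ 6 ≤ 2 ^ (6 * g) := by
      calc g ^ 6 ≤ (2 ^ g) ^ 6 := Nat.pow_le_pow_left e4 6
        _ = _ := by rw [← pow_mul]; congr 1; ring
    calc 2 * t ≤ 2 ^ 16 * 2 ^ (6 * g) := by
          have : 2 * t ≤ 40000 * g ^ 6 := by omega
          calc 2 * t ≤ 40000 * g ^ 6 := this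
            _ ≤ 2 ^ 16 * 2 ^ (6 * g) := Nat.mul_le_mul (by norm_num) e5
      _ = 2 ^ (16 + 6 * g) := (pow_add 2 _ _).symm
      _ ≤ _ := Nat.pow_le_pow_right (by norm_num) (by omega)
  have e4 : 2 ^ (2 * n) ≤ 2 ^ (22 * g * (t + 1)) * X ^ (3 * (t + 1)) := by
    calc 2 ^ (2 * n) ≤ ((2 * t) * X ^ 3) ^ (t + 1) := hρ.trans (Nat.pow_le_pow_left e1 _)
      _ ≤ (2 ^ (22 * g) * X ^ 3) ^ (t + 1) :=
          Nat.pow_le_pow_left (Nat.mul_le_mul_right _ e2) _
      _ = _ := by rw [mul_pow, ← pow_mul, ← pow_mul]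
  have e5 : 2 ^ (22 * g * (t + 1)) ≤ 2 ^ n := by
    refine Nat.pow_le_pow_right (by norm_num) ?_
    calc 22 * g * (t + 1) ≤ 22 * g * (20000 * g ^ 6) := Nat.mul_le_mul_left _ htk
      _ = 440000 * g ^ 7 := by ring
      _ ≤ n := by omega
  have e6 : 2 ^ n ≤ X ^ (3 * (t + 1)) := by
    refine Nat.le_of_mul_le_mul_left (c := 2 ^ n) ?_ (by positivity)
    rw [← pow_add, show n + n = 2 * n by ring]
    exact e4.trans (Nat.mul_le_mul_right _ e5)
  exact e6.trans (Nat.pow_le_pow_right hX1 (by omega))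

/-- Small vertex covers are counted by linear networks. -/
theorem upper_vc {n : ℕ} (hn : 2 ≤ n) (k : ℕ) :
    ∃ (T : Net ℚ (Pairs n) Bool (Finset (Fin n))) (a : Finset (Fin n) → ℚ),
      T.Linear ∧ (∀ e, T.reads e = 1) ∧
        ∀ x, T.value a x ≠ 0 ↔ ∃ C, IsCover x C ∧ C.card ≤ k := by
  classical
  have : Nonempty (Pairs n) := ⟨⟨(⟨0, by omega⟩, ⟨1, by omega⟩), by
    show (0 : ℕ) < 1
    norm_num⟩⟩
  obtain ⟨T, h1, h2, -, h4⟩ := exists_product (K := ℚ)
    (fun (e : Pairs n) (b : Bool) (C : Finset (Fin n)) =>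
      if b = true → e.1.1 ∈ C ∨ e.1.2 ∈ C then (1 : ℚ) else 0)
  refine ⟨T, fun C => if C.card ≤ k then 1 else 0, h1, h2, fun x => ?_⟩
  have h5 : ∀ C : Finset (Fin n), 0 ≤ T.eval x C ∧ (T.eval x C ≠ 0 ↔ IsCover x C) := by
    intro C
    rw [h4]
    refine ⟨prod_nonneg fun e _ => by split_ifs <;> norm_num, ?_⟩
    rw [prod_ne_zero_iff]
    constructor
    · intro h e
      by_contra hcon
      exact h e (mem_univ _) (if_neg hcon)
    · intro h e _
      rw [if_pos (h e)]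
      exact one_ne_zero
  unfold Net.value
  rw [Ne, sum_eq_zero_iff_of_nonneg (fun C _ => mul_nonneg (by split_ifs <;> norm_num) (h5 C).1)]
  push Not
  constructor
  · rintro ⟨C, -, hC⟩
    obtain ⟨g1, g2⟩ := mul_ne_zero_iff.1 hC
    refine ⟨C, (h5 C).2.1 g2, ?_⟩
    by_contra hcon
    exact g1 (if_neg hcon)
  · rintro ⟨C, hC, hk⟩
    refine ⟨C, mem_univ _, ?_⟩
    rw [if_pos hk, one_mul]
    exact (h5 C).2.2 hC

end Pool.Agent.Q202.TB
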